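import Pool.Agent.E8helper30.TD.Stm

/-!
# Project TD (helper30), MP_962d12_co: the hole of a packing of unit disks (piece HOLE)
-/

set_option autoImplicit false

namespace Pool.Agent.E8helper8.TD

open Pool.Agent.E8helper30.TD

lemma exists_y (s q : ℝ) (hq : 1 < q) (hq2 : q ^ 2 < 4 / 3) (hs : 2 ≤ s) (hs2 : s ≤ 2 * q) :
    ∃ h y : ℝ, 0 ≤ y ∧ h ^ 2 = 4 - s ^ 2 / 4 ∧ q ^ 2 < s ^ 2 / 4 + y ^ 2 ∧ q < h - y ∧ 0 < h := by
  have hu1 : 1 ≤ s ^ 2 / 4 := by nlinarith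
  have hu2 : s ^ 2 / 4 ≤ q ^ 2 := by nlinarith
  generalize s ^ 2 / 4 = u at *
  have h4 : 0 ≤ 4 - u := by linarith
  have hy0 : 0 ≤ q ^ 2 - u := by linarith
  have hh : (√(4 - u)) ^ 2 = 4 - u := Real.sq_sqrt h4
  have hyy : (√(q ^ 2 - u)) ^ 2 = q ^ 2 - u := Real.sq_sqrt hy0
  have hhn := Real.sqrt_nonneg (4 - u)
  have hyn := Real.sqrt_nonneg (q ^ 2 - u)
  have key : q + √(q ^ 2 - u) < √(4 - u) := by
    have h1 : q * √(q ^ 2 - u) < 2 - q ^ 2 := by
      apply lt_of_pow_lt_pow_left₀ 2 (by linarith)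
      rw [mul_pow, hyy]
      nlinarith
    apply lt_of_pow_lt_pow_left₀ 2 hhn
    nlinarith
  refine ⟨√(4 - u), (√(q ^ 2 - u) + (√(4 - u) - q)) / 2, by linarith, hh, ?_, by linarith,
    by linarith⟩
  have h2 : √(q ^ 2 - u) < (√(q ^ 2 - u) + (√(4 - u) - q)) / 2 := by linarith
  have h3 : (√(q ^ 2 - u)) ^ 2 < ((√(q ^ 2 - u) + (√(4 - u) - q)) / 2) ^ 2 :=
    pow_lt_pow_left₀ h2 hyn (by norm_num)
  linarith

lemma far (s h y q t x : ℝ) (hs : 2 ≤ s) (hy : 0 ≤ y) (hh : h ^ 2 = 4 - s ^ 2 / 4)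
    (hq : 1 < q) (hup : q < h - y)
    (h1 : 4 ≤ (t + s / 2) ^ 2 + x ^ 2) (h2 : 4 ≤ (t - s / 2) ^ 2 + x ^ 2) :
    q ^ 2 < t ^ 2 + (y - x) ^ 2 := by
  have h3 : q ^ 2 < (h - y) ^ 2 := pow_lt_pow_left₀ hup (by linarith) (by norm_num)
  have h4 : (h - y) ^ 2 ≤ t ^ 2 + (y - x) ^ 2 := by
    rcases le_total x h with hx | hx
    · have h5 : 0 ≤ y * (h - x) := mul_nonneg hy (by linarith)
      nlinarith
    · nlinarith [sq_nonneg t]
  linarith

theorem t_HOLE : S_HOLE := by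
  intro s q S c₀ c₁ hq hq2 hs hs2 hS h0 h1 hc
  have hq3 : q ^ 2 < 4 / 3 := by
    have h3 : (0 : ℝ) < √3 := Real.sqrt_pos.mpr (by norm_num)
    have h33 : (√3) ^ 2 = (3 : ℝ) := Real.sq_sqrt (by norm_num)
    calc q ^ 2 < (2 / √3) ^ 2 := pow_lt_pow_left₀ hq2 (by linarith) (by norm_num)
      _ = 4 / 3 := by rw [div_pow, h33]; norm_num
  obtain ⟨h, y, hy, hh, hlow, hup, hpos⟩ := exists_y s q hq hq3 hs hs2
  have hs0 : (0 : ℝ) < s := by linarith
  have hsC : (s : ℂ) ≠ 0 := by exact_mod_cast hs0.ne'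
  obtain ⟨e, he⟩ : ∃ e : ℂ, e = (c₁ - c₀) / s := ⟨_, rfl⟩
  have hen : ‖e‖ = 1 := by
    rw [he, norm_div, hc, Complex.norm_real, Real.norm_eq_abs, abs_of_pos hs0, div_self hs0.ne']
  have he0 : e ≠ 0 := by
    intro h'
    rw [h'] at hen
    simp at hen
  have hc1 : c₁ = c₀ + s * e := by
    rw [he]
    field_simp
    ring
  refine ⟨c₀ + (s / 2 + y * Complex.I) * e, ?_⟩
  intro c hcS
  obtain ⟨w, hw⟩ : ∃ w : ℂ, c = c₀ + w * e := ⟨(c - c₀) / e, by field_simp; ring⟩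
  have hz : ‖(c₀ + (s / 2 + y * Complex.I) * e) - c‖ = ‖(s / 2 + y * Complex.I) - w‖ := by
    rw [hw]
    have : c₀ + (s / 2 + y * Complex.I) * e - (c₀ + w * e)
        = ((s / 2 + y * Complex.I) - w) * e := by ring
    rw [this, norm_mul, hen, mul_one]
  rw [hz]
  have hsq : ‖((s : ℂ) / 2 + y * Complex.I) - w‖ ^ 2 = (w.re - s / 2) ^ 2 + (y - w.im) ^ 2 := by
    rw [Complex.sq_norm, Complex.normSq_apply]
    have hre : (((s : ℂ) / 2 + y * Complex.I) - w).re = s / 2 - w.re := by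
      simp [Complex.div_re]
    have him : (((s : ℂ) / 2 + y * Complex.I) - w).im = y - w.im := by
      simp [Complex.div_im]
    rw [hre, him]
    ring
  apply lt_of_pow_lt_pow_left₀ 2 (norm_nonneg _)
  rw [hsq]
  by_cases e0 : c = c₀
  · have hw0 : w = 0 := by
      have : w * e = 0 := by
        have h5 : c₀ + w * e = c₀ := by rw [← hw, e0]
        simpa using h5
      rcases mul_eq_zero.mp this with h6 | h6
      · exact h6
      · exact absurd h6 he0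
    rw [hw0]
    simp only [Complex.zero_re, Complex.zero_im]
    nlinarith
  by_cases e1 : c = c₁
  · have hw0 : w = s := by
      have h5 : w * e = s * e := by
        have h6 : c₀ + w * e = c₀ + s * e := by rw [← hw, e1, hc1]
        exact add_left_cancel h6
      exact mul_right_cancel₀ he0 h5
    rw [hw0]
    simp only [Complex.ofReal_re, Complex.ofReal_im]
    nlinarith
  have d0 := hS c hcS c₀ h0 e0
  have d1 := hS c hcS c₁ h1 e1
  have n0 : ‖c - c₀‖ = ‖w‖ := by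
    have : c - c₀ = w * e := by rw [hw]; ring
    rw [this, norm_mul, hen, mul_one]
  have n1 : ‖c - c₁‖ = ‖w - s‖ := by
    have : c - c₁ = (w - s) * e := by rw [hw, hc1]; ring
    rw [this, norm_mul, hen, mul_one]
  rw [n0] at d0
  rw [n1] at d1
  have s0 : 4 ≤ w.re ^ 2 + w.im ^ 2 := by
    have h7 : ‖w‖ ^ 2 = w.re ^ 2 + w.im ^ 2 := by
      rw [Complex.sq_norm, Complex.normSq_apply]; ring
    nlinarith
  have s1 : 4 ≤ (w.re - s) ^ 2 + w.im ^ 2 := by
    have h7 : ‖w - s‖ ^ 2 = (w.re - s) ^ 2 + w.im ^ 2 := by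
      rw [Complex.sq_norm, Complex.normSq_apply]
      simp
      ring
    nlinarith
  apply far s h y q (w.re - s / 2) w.im hs hy hh hq hup
  · have : w.re - s / 2 + s / 2 = w.re := by ring
    rw [this]
    exact s0
  · have : w.re - s / 2 - s / 2 = w.re - s := by ring
    rw [this]
    exact s1

end Pool.Agent.E8helper8.TD
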